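import Pool.Agent.MP_7b45f6_mp.H32.Spec

/-!
# A popular class of ladders
-/

set_option autoImplicit false

namespace Pool.Agent.MP_7b45f6_mp.H32

open Classical Filter Topology

namespace POP

/-- All ladders of length `n` in the box. -/
def XL (n : ℕ) : Set (List P × List P) :=
  {x | (Adj (hd x.1) (lt x.2) ∧ Adj (lt x.1) (hd x.2) ∧ hd x.1 0 = lt x.2 0 ∧
    lt x.1 0 = hd x.2 0) ∧ x ∈ Ld (hd x.1) (lt x.2) (lt x.1) (hd x.2) x.1.length n ∧
    ∀ p ∈ x.1 ++ x.2, p ∈ box n}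

theorem split {w : List P} {n : ℕ} (h : w ∈ Tour 0 n) (hn : 3 ≤ n) :
    ∃ x ∈ XL n, (∃ k ∈ Finset.range (n + 1), w = (x.1 ++ x.2).rotate k) ∧
      (x.1 ++ x.2).toFinset = w.toFinset := by
  have hw : w ≠ [] := fun e => by
    have := h.2.1
    rw [e] at this
    simp at this
    omega
  have hb : ∀ p ∈ w, p ∈ box n := fun p hp => mem_box.2 fun i => by
    have h1 := d1_hd_le_len hp
    have h2 := coord_le_d1 (hd w) p i
    rw [len_of_chain h.2.2.2.1, h.2.1] at h1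
    rw [h.2.2.1] at h1 h2
    simp only [Pi.zero_apply] at h2
    omega
  have h0 : (0 : P) ∈ w := h.2.2.1 ▸ hd_mem hw
  obtain ⟨u, v, rfl, h1, h2⟩ := ext_edge h hn 0
  have h3 := Tour.rot h
  have h4 : ∀ q, q ∈ v ++ u ↔ q ∈ u ++ v := fun q => List.perm_append_comm.mem_iff
  obtain ⟨p, hp, hmax⟩ := Finset.exists_max_image (v ++ u).toFinset (fun q => q 0)
    ⟨0, List.mem_toFinset.2 ((h4 0).2 h0)⟩
  simp only [List.mem_toFinset] at hp hmax
  obtain ⟨U, W, e, hU, hW, h5, h6⟩ : ∃ U W, v ++ u = U ++ W ∧ U ≠ [] ∧ W ≠ [] ∧ lt U 0 = p 0 ∧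
      hd W 0 = p 0 := by
    by_cases hc : p ≠ hd (v ++ u) ∧ p ≠ lt (v ++ u)
    · exact ext_inner h3.1.1 h3.2.2.2.1 hp hc.1 hc.2 0 (Or.inl hmax)
    have h5 : p 0 = hd (v ++ u) 0 := by
      rcases not_and_or.1 hc with h | h <;> rw [not_not.1 h]
      exact h1.symm
    have h6 : ∀ q ∈ v ++ u, q 0 = p 0 := fun q hq =>
      le_antisymm (hmax q hq) (h5 ▸ h2 q ((h4 q).1 hq))
    have h7 := h3.2.1
    generalize v ++ u = z at h6 h7
    match z, h6, h7 with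
    | a :: b :: l, h6, _ => exact ⟨[a], b :: l, rfl, by simp, by simp, h6 a (by simp), h6 b (by simp)⟩
    | [a], _, h7 => simp at h7; omega
    | [], _, h7 => simp at h7; omega
  obtain ⟨g1, g2, -, g4, g5⟩ := h3
  simp only [← h4] at h2 hb h0
  refine ⟨(U, W), ?_, ⟨v.length, ?_, ?_⟩, ?_⟩
  · rw [e] at g1 g2 g4 g5 h1 h2 hb h0 hmax
    rw [← jn_eq_zero, jn, cs_append _ hU hW] at g4
    rw [lt_append _ hW, hd_append hU] at g5 h1
    rw [hd_append hU] at h2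
    refine ⟨⟨g5.symm, ?_, h1, h5.trans h6.symm⟩, ⟨g1, rfl, g2, hU, hW, jn_eq_zero.1 ?_,
      jn_eq_zero.1 ?_, rfl, rfl, rfl, rfl, fun q hq => ⟨h2 q hq, h5 ▸ hmax q hq⟩, 0, h0, rfl⟩, hb⟩
    · by_contra h7
      rw [jmp_not h7] at g4
      omega
    · change cs jmp U = 0
      omega
    · change cs jmp W = 0
      omega
  · simp only [List.length_append] at g2
    exact Finset.mem_range.2 (by omega)
  · rw [← e, List.rotate_append_length_eq]
  · rw [← e]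
    exact List.toFinset_eq_of_perm _ _ List.perm_append_comm

theorem bd_XL {θ : Par} {G : ℝ} (hG : 0 ≤ G)
    (h : ∀ (l1 l2 r1 r2 : P) (m n : ℕ), Adj l1 l2 → Adj r1 r2 → l1 0 = l2 0 → r1 0 = r2 0 →
      0 ≤ l1 2 → 0 ≤ l2 2 → Bd (Ld l1 l2 r1 r2 m n) (fun x => ew θ (x.1 ++ x.2)) G) (n : ℕ) :
    Bd (XL n) (fun x => ew θ (x.1 ++ x.2)) (((2 * n + 2) ^ 13 : ℕ) * G) := by
  refine Bd.classify (fun x => (hd x.1, lt x.2, lt x.1, hd x.2, x.1.length)) hG (fun t ht => ?_)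
    fun b s hs => ?_
  · refine (Finset.card_le_card (t := box n ×ˢ box n ×ˢ box n ×ˢ box n ×ˢ Finset.range (n + 1))
      fun b hb => ?_).trans ?_
    · obtain ⟨x, ⟨-, ⟨-, -, h1, h2, h3, -⟩, h4⟩, rfl⟩ := ht b hb
      simp only [List.length_append] at h1
      simp only [Finset.mem_product, Finset.mem_range]
      exact ⟨h4 _ (List.mem_append_left _ (hd_mem h2)), h4 _ (List.mem_append_right _ (lt_mem h3)),
        h4 _ (List.mem_append_left _ (lt_mem h2)), h4 _ (List.mem_append_right _ (hd_mem h3)),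
        by omega⟩
    · simp only [Finset.card_product, card_box, Finset.card_range]
      calc _ ≤ (2 * n + 2) ^ 3 * ((2 * n + 2) ^ 3 * ((2 * n + 2) ^ 3 * ((2 * n + 2) ^ 3 *
          (2 * n + 2)))) := by gcongr <;> omega
        _ = _ := by ring
  rcases s.eq_empty_or_nonempty with rfl | ⟨x, hx⟩
  · simpa using hG
  obtain ⟨⟨⟨a1, a2, a3, a4⟩, a5, -⟩, rfl⟩ := hs hx
  refine h _ _ _ _ x.1.length n a1 a2 a3 a4
    (a5.1.2 _ (List.mem_append_left _ (hd_mem a5.2.2.2.1)))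
    (a5.1.2 _ (List.mem_append_right _ (lt_mem a5.2.2.2.2.1))) s fun y hy => ?_
  obtain ⟨⟨-, b5, -⟩, e⟩ := hs hy
  simp only [Prod.mk.injEq] at e
  rwa [e.1, e.2.1, e.2.2.1, e.2.2.2.1, e.2.2.2.2] at b5

end POP

open POP in
theorem pop : PopStmt := by
  intro a b l l' G hl hD
  by_contra hc
  have hG : 0 ≤ max G 0 := le_max_right _ _
  have h1 := bd_XL (θ := ⟨a, b, l'⟩) hG fun l1 l2 r1 r2 m n a1 a2 a3 a4 a5 a6 => by
    by_contra h
    exact hc ⟨l1, l2, r1, r2, m, n, a1, a2, a3, a4, a5, a6,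
      (not_bd h).mono subset_rfl (fun _ _ => le_rfl) (le_max_left _ _)⟩
  obtain ⟨N, hN⟩ := eventually_atTop.1
    ((ev_poly (max G 0) 2 14 (sub_pos.2 hl)).and (eventually_ge_atTop 3))
  have h0 : ∀ n : ℕ, (0 : ℝ) ≤ 6 ^ n * Real.exp (kap ⟨a, b, l⟩ * n) := fun n => by positivity
  refine hD ⟨1 + ∑ n ∈ Finset.range N, 6 ^ n * Real.exp (kap ⟨a, b, l⟩ * n), fun n => ?_⟩
  rcases lt_or_ge n N with h | h
  · exact (bd_crude _ 0 n).mono subset_rfl (fun _ _ => le_rfl) ((Finset.single_le_sum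
      (fun n _ => h0 n) (Finset.mem_range.2 h)).trans (le_add_of_nonneg_left zero_le_one))
  obtain ⟨h2, h3⟩ := hN n h
  refine ((h1 n).transfer (c := Real.exp (-((l - l') * n)))
    (fan_dec (Finset.range (n + 1)) fun k (x : List P × List P) => (x.1 ++ x.2).rotate k)
    (Real.exp_pos _).le (fun _ => (ew_pos _ _).le) fun w hw => ?_).mono subset_rfl
    (fun _ _ => le_rfl) ?_
  · obtain ⟨x, hx, h4, h5⟩ := split hw h3
    refine ⟨x, hx, h4, le_of_eq ?_⟩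
    rw [ew, ew, h5, phi_l a b l l', hw.1.card, hw.2.1, ← Real.exp_add]
    congr 1
    ring
  · refine le_trans ?_ (le_add_of_nonneg_right (Finset.sum_nonneg fun n _ => h0 n))
    rw [Real.exp_neg, mul_assoc, inv_mul_le_iff₀ (Real.exp_pos _), mul_one]
    refine le_trans ?_ h2
    rw [Finset.card_range, ← mul_assoc, mul_comm, pow_succ' _ 13]
    push_cast
    gcongr <;> linarith [(Nat.cast_nonneg n : (0 : ℝ) ≤ n)]

end Pool.Agent.MP_7b45f6_mp.H32
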